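import Pool.Agent.Helper47.T3.Goals

/-!
# Project FLG, packet T3R (MP_c98eff_gt, n = 3): the curvature in the quaternionic frame
-/

set_option autoImplicit false

namespace Pool.Agent.Helper47.T3

open Finset MeasureTheory Pool.Agent.Helper73

section Smooth

variable {n : ℕ}

theorem T3R_det {N : ℕ} {B : SN.EE n → Matrix (Fin N) (Fin N) ℝ} {s : Set (SN.EE n)}
    (h : ∀ i j, ContDiffOn ℝ ((⊤ : ℕ∞) : WithTop ℕ∞) (fun y => B y i j) s) :
    ContDiffOn ℝ ((⊤ : ℕ∞) : WithTop ℕ∞) (fun y => (B y).det) s := by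
  simp only [Matrix.det_apply']
  exact ContDiffOn.sum fun σ _ => contDiffOn_const.mul (contDiffOn_prod fun i _ => h _ _)

theorem T3R_inv {N : ℕ} {B : SN.EE n → Matrix (Fin N) (Fin N) ℝ} {s : Set (SN.EE n)}
    (h : ∀ i j, ContDiffOn ℝ ((⊤ : ℕ∞) : WithTop ℕ∞) (fun y => B y i j) s)
    (hd : ∀ y ∈ s, (B y).det ≠ 0) (i j : Fin N) :
    ContDiffOn ℝ ((⊤ : ℕ∞) : WithTop ℕ∞) (fun y => (B y)⁻¹ i j) s := by
  have h1 : (fun y => (B y)⁻¹ i j) = fun y => ((B y).det)⁻¹ * ((B y).updateRow j (Pi.single i 1)).det := by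
    funext y
    rw [Matrix.inv_def, Matrix.smul_apply, Matrix.adjugate_apply, smul_eq_mul, Ring.inverse_eq_inv']
  rw [h1]
  refine ((T3R_det h).inv hd).mul (T3R_det fun a b => ?_)
  by_cases ha : a = j
  · subst ha
    simp only [Matrix.updateRow_self]
    exact contDiffOn_const
  · have h2 : (fun y => (B y).updateRow j (Pi.single i 1) a b) = fun y => B y a b := by
      funext y
      rw [Matrix.updateRow_ne ha]
    rw [h2]
    exact h a b

theorem T3R_pd {f : SN.EE n → ℝ} (hf : ContDiffOn ℝ ((⊤ : ℕ∞) : WithTop ℕ∞) f {0}ᶜ)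
    (i : Fin (n + 1)) : ContDiffOn ℝ ((⊤ : ℕ∞) : WithTop ℕ∞) (SN.pd i f) {0}ᶜ := by
  have h1 : ContDiffOn ℝ ((⊤ : ℕ∞) : WithTop ℕ∞) (fderiv ℝ f) {0}ᶜ :=
    hf.fderiv_of_isOpen isOpen_compl_singleton (by simp)
  exact h1.clm_apply contDiffOn_const

theorem T3R_cyl (M : SN.RMetric n) (i j : Fin (n + 1)) :
    ContDiffOn ℝ ((⊤ : ℕ∞) : WithTop ℕ∞) (fun y => SN.cyl M.G y i j) {0}ᶜ := by
  have h1 : (fun y => SN.cyl M.G y i j) = fun y => (‖y‖ ^ 2)⁻¹ * M.G y i j := by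
    funext y
    rfl
  rw [h1]
  refine ContDiffOn.mul (ContDiffOn.inv ?_ ?_) (M.smooth i j)
  · exact (contDiff_norm_sq ℝ).contDiffOn
  · intro y hy
    exact pow_ne_zero 2 (norm_ne_zero_iff.2 hy)

theorem T3R_cyldet (M : SN.RMetric n) (y : SN.EE n) (hy : y ≠ 0) : (SN.cyl M.G y).det ≠ 0 := by
  have hn : 0 < ‖y‖ := norm_pos_iff.2 hy
  have h1 : M.G y = M.G (‖y‖⁻¹ • y) := (M.rays ‖y‖⁻¹ y (inv_pos.2 hn)).symm
  have h2 : ‖‖y‖⁻¹ • y‖ = 1 := by
    rw [norm_smul, norm_inv, norm_norm, inv_mul_cancel₀ hn.ne']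
  have h3 := (M.posDef _ h2).det_pos
  unfold SN.cyl
  rw [Matrix.det_smul, h1]
  exact mul_ne_zero (pow_ne_zero _ (inv_ne_zero (pow_ne_zero 2 hn.ne'))) h3.ne'

theorem T3R_chr (M : SN.RMetric n) (i j k : Fin (n + 1)) :
    ContDiffOn ℝ ((⊤ : ℕ∞) : WithTop ℕ∞) (SN.Chr (SN.cyl M.G) i j k) {0}ᶜ := by
  unfold SN.Chr
  refine contDiffOn_const.mul (ContDiffOn.sum fun l _ => ?_)
  refine (T3R_inv (fun a b => T3R_cyl M a b) (fun y hy => T3R_cyldet M y hy) k l).mul ?_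
  exact ((T3R_pd (T3R_cyl M j l) i).add (T3R_pd (T3R_cyl M i l) j)).sub (T3R_pd (T3R_cyl M i j) l)

theorem T3R_chrd (M : SN.RMetric n) (i j k : Fin (n + 1)) {x : SN.EE n} (hx : x ≠ 0) :
    DifferentiableAt ℝ (SN.Chr (SN.cyl M.G) i j k) x :=
  ((T3R_chr M i j k).contDiffAt (isOpen_compl_singleton.mem_nhds hx)).differentiableAt (by simp)

theorem T3R_fs (f : SN.EE n → ℝ) (x v : SN.EE n) : fderiv ℝ f x v = ∑ i, v i * SN.pd i f x := by
  have h1 : v = ∑ i, v i • EuclideanSpace.single i (1 : ℝ) := by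
    ext j
    simp [Finset.sum_apply, Pi.single_apply]
  conv_lhs => rw [h1]
  rw [map_sum]
  refine Finset.sum_congr rfl fun i _ => ?_
  rw [map_smul, smul_eq_mul]
  rfl

end Smooth

section Quat

theorem T3R_ofQ_add (p q : TS.HH) : ofQ (p + q) = ofQ p + ofQ q := by
  ext a
  fin_cases a <;> simp [ofQ]

theorem T3R_ofQ_smul (r : ℝ) (p : TS.HH) : ofQ (r • p) = r • ofQ p := by
  ext a
  fin_cases a <;> simp [ofQ]

theorem T3R_toQ_add (x y : SN.EE 3) : TS.toQ (x + y) = TS.toQ x + TS.toQ y := by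
  ext <;> simp [TS.toQ]

theorem T3R_toQ_smul (r : ℝ) (x : SN.EE 3) : TS.toQ (r • x) = r • TS.toQ x := by
  ext <;> simp [TS.toQ]

theorem T3R_toQ_ofQ (q : TS.HH) : TS.toQ (ofQ q) = q := by
  ext <;> simp [TS.toQ, ofQ]

theorem T3R_ofQ_toQ (x : SN.EE 3) : ofQ (TS.toQ x) = x := by
  ext a
  fin_cases a <;> simp [TS.toQ, ofQ]

/-- the identification of `ℝ⁴` with the quaternions -/
noncomputable def tq : SN.EE 3 ≃L[ℝ] TS.HH :=
  LinearEquiv.toContinuousLinearEquiv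
    { toFun := TS.toQ
      invFun := ofQ
      map_add' := T3R_toQ_add
      map_smul' := T3R_toQ_smul
      left_inv := T3R_ofQ_toQ
      right_inv := T3R_toQ_ofQ }

theorem tq_apply (x : SN.EE 3) : tq x = TS.toQ x := rfl

/-- the linear map `qv i` -/
noncomputable def ql (i : Fin 3) : SN.EE 3 →L[ℝ] SN.EE 3 :=
  LinearMap.toContinuousLinearMap
    { toFun := qv i
      map_add' := fun x y => by unfold qv; rw [T3R_toQ_add, add_mul, T3R_ofQ_add]
      map_smul' := fun r x => by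
        unfold qv; rw [T3R_toQ_smul, smul_mul_assoc, T3R_ofQ_smul]; rfl }

theorem ql_apply (i : Fin 3) (x : SN.EE 3) : ql i x = qv i x := rfl

theorem T3R_toQ_qv (i : Fin 3) (x : SN.EE 3) : TS.toQ (qv i x) = TS.toQ x * TS.qe i := by
  unfold qv
  rw [T3R_toQ_ofQ]

theorem T3R_comm (i j : Fin 3) :
    TS.qe i * TS.qe j - TS.qe j * TS.qe i = (2 : ℝ) • ∑ m, TS.eps i j m • TS.qe m := by
  fin_cases i <;> fin_cases j <;> ext <;>
    simp [TS.qe, TS.eps, Fin.sum_univ_three] <;> norm_num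

end Quat

section Sums

variable {N : ℕ}

theorem T3R_L1 (D : Fin N → Fin N → Fin N → ℝ) (P Q R : Fin N → ℝ) :
    (∑ b, ∑ c, (∑ a, P a * D a b c) * Q b * R c) =
      ∑ a, ∑ b, ∑ c, D a b c * P a * Q b * R c := by
  simp only [Finset.sum_mul]
  have h1 : ∀ b, ∑ c, ∑ a, P a * D a b c * Q b * R c = ∑ a, ∑ c, P a * D a b c * Q b * R c :=
    fun b => Finset.sum_comm
  simp only [h1]
  rw [Finset.sum_comm]
  refine Finset.sum_congr rfl fun a _ => Finset.sum_congr rfl fun b _ =>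
    Finset.sum_congr rfl fun c _ => by ring

theorem T3R_L3 (C : Fin N → Fin N → ℝ) (C' : Fin N → Fin N → Fin N → ℝ) (P Q R : Fin N → ℝ) :
    (∑ a, ∑ m, C a m * P a * ∑ b, ∑ c, C' b c m * Q b * R c) =
      ∑ a, ∑ b, ∑ c, (∑ m, C' b c m * C a m) * P a * Q b * R c := by
  refine Finset.sum_congr rfl fun a _ => ?_
  simp only [Finset.mul_sum, Finset.sum_mul]
  rw [Finset.sum_comm]
  refine Finset.sum_congr rfl fun b _ => ?_
  rw [Finset.sum_comm]
  refine Finset.sum_congr rfl fun c _ => Finset.sum_congr rfl fun m _ => by ring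

end Sums

section Main

variable (M : SN.RMetric 3)

/-- the covariant derivative in coordinates -/
theorem T3R_cvd (j k : Fin 3) (d : Fin (3 + 1)) (y : SN.EE 3) :
    cvd (SN.cyl M.G) j k d y = qv k (qv j y) d +
      ∑ b, ∑ c, SN.Chr (SN.cyl M.G) b c d y * qv j y b * qv k y c := by
  unfold cvd
  congr 1
  have h1 : HasFDerivAt (fun z => qv k z d)
      ((EuclideanSpace.proj d : SN.EE 3 →L[ℝ] ℝ).comp (ql k)) y :=
    ((EuclideanSpace.proj d : SN.EE 3 →L[ℝ] ℝ).comp (ql k)).hasFDerivAt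
  rw [h1.fderiv]
  rfl

/-- derivative of the covariant derivative -/
theorem T3R_dcvd (j k : Fin 3) (d : Fin (3 + 1)) {x : SN.EE 3} (hx : x ≠ 0) (v : SN.EE 3) :
    DifferentiableAt ℝ (fun y => cvd (SN.cyl M.G) j k d y) x ∧
    fderiv ℝ (fun y => cvd (SN.cyl M.G) j k d y) x v = qv k (qv j v) d +
      ∑ b, ∑ c, ((∑ a, v a * SN.pd a (SN.Chr (SN.cyl M.G) b c d) x) * qv j x b * qv k x c
        + SN.Chr (SN.cyl M.G) b c d x * qv j v b * qv k x c
        + SN.Chr (SN.cyl M.G) b c d x * qv j x b * qv k v c) := by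
  have e1 : (fun y => cvd (SN.cyl M.G) j k d y) = fun y => qv k (qv j y) d +
      ∑ b, ∑ c, SN.Chr (SN.cyl M.G) b c d y * qv j y b * qv k y c :=
    funext fun y => T3R_cvd M j k d y
  have h1 : HasFDerivAt (fun z => qv k (qv j z) d)
      ((EuclideanSpace.proj d : SN.EE 3 →L[ℝ] ℝ).comp ((ql k).comp (ql j))) x :=
    ((EuclideanSpace.proj d : SN.EE 3 →L[ℝ] ℝ).comp ((ql k).comp (ql j))).hasFDerivAt
  have h2 : ∀ (i : Fin 3) (b : Fin (3 + 1)), HasFDerivAt (fun z => qv i z b)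
      ((EuclideanSpace.proj b : SN.EE 3 →L[ℝ] ℝ).comp (ql i)) x := fun i b =>
    ((EuclideanSpace.proj b : SN.EE 3 →L[ℝ] ℝ).comp (ql i)).hasFDerivAt
  have h3 : ∀ b c, HasFDerivAt (SN.Chr (SN.cyl M.G) b c d)
      (fderiv ℝ (SN.Chr (SN.cyl M.G) b c d) x) x := fun b c => (T3R_chrd M b c d hx).hasFDerivAt
  have h4 := h1.fun_add (HasFDerivAt.fun_sum (u := (univ : Finset (Fin (3 + 1)))) fun b _ =>
    HasFDerivAt.fun_sum (u := (univ : Finset (Fin (3 + 1)))) fun c _ =>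
      ((h3 b c).fun_mul (h2 j b)).fun_mul (h2 k c))
  rw [e1]
  refine ⟨h4.differentiableAt, ?_⟩
  rw [h4.fderiv]
  simp only [add_apply, _root_.sum_apply,
    smul_apply, ContinuousLinearMap.comp_apply, smul_eq_mul, T3R_fs,
    ql_apply]
  congr 1
  refine Finset.sum_congr rfl fun b _ => Finset.sum_congr rfl fun c _ => ?_
  simp only [PiLp.proj_apply]
  ring

/-- the vector `[X_i, X_j]` -/
theorem T3R_br (i j : Fin 3) (x : SN.EE 3) (d : Fin (3 + 1)) :
    qv j (qv i x) d - qv i (qv j x) d = 2 * ∑ m, TS.eps i j m * qv m x d := by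
  have h1 : qv j (qv i x) - qv i (qv j x) = (2 : ℝ) • ∑ m, TS.eps i j m • qv m x := by
    apply tq.injective
    rw [map_sub, map_smul, map_sum]
    simp only [map_smul, tq_apply, T3R_toQ_qv]
    rw [mul_assoc, mul_assoc, ← mul_sub, T3R_comm]
    simp only [mul_smul_comm, Finset.mul_sum]
  have h2 := congrArg (fun v : SN.EE 3 => v d) h1
  simpa [Finset.sum_apply, smul_eq_mul] using h2

theorem T3R_br2 (i j k : Fin 3) (x : SN.EE 3) (d : Fin (3 + 1)) :
    qv k (qv j (qv i x)) d - qv k (qv i (qv j x)) d =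
      2 * ∑ m, TS.eps i j m * qv k (qv m x) d := by
  have h1 : qv k (qv j (qv i x)) - qv k (qv i (qv j x)) =
      (2 : ℝ) • ∑ m, TS.eps i j m • qv k (qv m x) := by
    apply tq.injective
    rw [map_sub, map_smul, map_sum]
    simp only [map_smul, tq_apply, T3R_toQ_qv]
    rw [← sub_mul, mul_assoc, mul_assoc, ← mul_sub, T3R_comm]
    simp only [mul_smul_comm, smul_mul_assoc, Finset.mul_sum, Finset.sum_mul]
  have h2 := congrArg (fun v : SN.EE 3 => v d) h1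
  simpa [Finset.sum_apply, smul_eq_mul] using h2

/-- `∇_i ∇_j X_k` -/
noncomputable def W2 (i j k : Fin 3) (d : Fin (3 + 1)) (x : SN.EE 3) : ℝ :=
  fderiv ℝ (fun y => cvd (SN.cyl M.G) j k d y) x (qv i x) +
    ∑ a, ∑ b, SN.Chr (SN.cyl M.G) a b d x * qv i x a * cvd (SN.cyl M.G) j k b x

theorem T3R_W (i j k : Fin 3) (d : Fin (3 + 1)) {x : SN.EE 3} (hx : x ≠ 0) :
    W2 M i j k d x = qv k (qv j (qv i x)) d +
      (∑ a, ∑ b, ∑ c, SN.pd a (SN.Chr (SN.cyl M.G) b c d) x * qv i x a * qv j x b * qv k x c) +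
      (∑ b, ∑ c, SN.Chr (SN.cyl M.G) b c d x * qv j (qv i x) b * qv k x c) +
      (∑ b, ∑ c, SN.Chr (SN.cyl M.G) b c d x * qv j x b * qv k (qv i x) c) +
      (∑ b, ∑ c, SN.Chr (SN.cyl M.G) b c d x * qv i x b * qv k (qv j x) c) +
      (∑ a, ∑ b, ∑ c, (∑ m, SN.Chr (SN.cyl M.G) b c m x * SN.Chr (SN.cyl M.G) a m d x) *
        qv i x a * qv j x b * qv k x c) := by
  unfold W2
  rw [(T3R_dcvd M j k d hx (qv i x)).2]
  have h1 : (∑ a, ∑ b, SN.Chr (SN.cyl M.G) a b d x * qv i x a * cvd (SN.cyl M.G) j k b x) =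
      (∑ b, ∑ c, SN.Chr (SN.cyl M.G) b c d x * qv i x b * qv k (qv j x) c) +
      (∑ a, ∑ b, ∑ c, (∑ m, SN.Chr (SN.cyl M.G) b c m x * SN.Chr (SN.cyl M.G) a m d x) *
        qv i x a * qv j x b * qv k x c) := by
    rw [← T3R_L3 (fun a m => SN.Chr (SN.cyl M.G) a m d x)
      (fun b c m => SN.Chr (SN.cyl M.G) b c m x) (fun a => qv i x a) (fun a => qv j x a)
      (fun a => qv k x a), ← Finset.sum_add_distrib]
    refine Finset.sum_congr rfl fun a _ => ?_
    rw [← Finset.sum_add_distrib]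
    refine Finset.sum_congr rfl fun b _ => ?_
    rw [T3R_cvd]
    ring
  rw [h1, ← T3R_L1 (fun a b c => SN.pd a (SN.Chr (SN.cyl M.G) b c d) x) (fun a => qv i x a)
    (fun a => qv j x a) (fun a => qv k x a)]
  simp only [Finset.sum_add_distrib]
  ring

/-- the curvature in coordinates -/
theorem T3R_A (i j k : Fin 3) (d : Fin (3 + 1)) {x : SN.EE 3} (hx : x ≠ 0) :
    W2 M i j k d x - W2 M j i k d x - 2 * ∑ m, TS.eps i j m * cvd (SN.cyl M.G) m k d x =
      ∑ a, ∑ b, ∑ c, SN.Rup (SN.cyl M.G) a b c d x * qv i x a * qv j x b * qv k x c := by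
  rw [T3R_W M i j k d hx, T3R_W M j i k d hx]
  have e1 := T3R_br2 i j k x d
  have e2 : (∑ b, ∑ c, SN.Chr (SN.cyl M.G) b c d x * qv j (qv i x) b * qv k x c) -
      (∑ b, ∑ c, SN.Chr (SN.cyl M.G) b c d x * qv i (qv j x) b * qv k x c) =
      2 * ∑ m, TS.eps i j m * ∑ b, ∑ c, SN.Chr (SN.cyl M.G) b c d x * qv m x b * qv k x c := by
    have h1 : 2 * ∑ m, TS.eps i j m * ∑ b, ∑ c, SN.Chr (SN.cyl M.G) b c d x * qv m x b * qv k x c =
        ∑ b, ∑ c, SN.Chr (SN.cyl M.G) b c d x * (2 * ∑ m, TS.eps i j m * qv m x b) * qv k x c := by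
      simp only [Finset.mul_sum, Finset.sum_mul]
      rw [Finset.sum_comm]
      refine Finset.sum_congr rfl fun b _ => ?_
      rw [Finset.sum_comm]
      refine Finset.sum_congr rfl fun c _ => Finset.sum_congr rfl fun m _ => by ring
    rw [h1, ← Finset.sum_sub_distrib]
    refine Finset.sum_congr rfl fun b _ => ?_
    rw [← Finset.sum_sub_distrib]
    refine Finset.sum_congr rfl fun c _ => ?_
    rw [← T3R_br i j x b]
    ring
  have e3 : (∑ a, ∑ b, ∑ c, SN.pd a (SN.Chr (SN.cyl M.G) b c d) x * qv j x a * qv i x b * qv k x c) =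
      ∑ a, ∑ b, ∑ c, SN.pd b (SN.Chr (SN.cyl M.G) a c d) x * qv i x a * qv j x b * qv k x c := by
    rw [Finset.sum_comm]
    refine Finset.sum_congr rfl fun a _ => Finset.sum_congr rfl fun b _ =>
      Finset.sum_congr rfl fun c _ => by ring
  have e4 : (∑ a, ∑ b, ∑ c, (∑ m, SN.Chr (SN.cyl M.G) b c m x * SN.Chr (SN.cyl M.G) a m d x) *
        qv j x a * qv i x b * qv k x c) =
      ∑ a, ∑ b, ∑ c, (∑ m, SN.Chr (SN.cyl M.G) a c m x * SN.Chr (SN.cyl M.G) b m d x) *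
        qv i x a * qv j x b * qv k x c := by
    rw [Finset.sum_comm]
    refine Finset.sum_congr rfl fun a _ => Finset.sum_congr rfl fun b _ =>
      Finset.sum_congr rfl fun c _ => by ring
  have e5 : (∑ a, ∑ b, ∑ c, SN.Rup (SN.cyl M.G) a b c d x * qv i x a * qv j x b * qv k x c) =
      (∑ a, ∑ b, ∑ c, SN.pd a (SN.Chr (SN.cyl M.G) b c d) x * qv i x a * qv j x b * qv k x c) -
      (∑ a, ∑ b, ∑ c, SN.pd b (SN.Chr (SN.cyl M.G) a c d) x * qv i x a * qv j x b * qv k x c) +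
      (∑ a, ∑ b, ∑ c, (∑ m, SN.Chr (SN.cyl M.G) b c m x * SN.Chr (SN.cyl M.G) a m d x) *
        qv i x a * qv j x b * qv k x c) -
      ∑ a, ∑ b, ∑ c, (∑ m, SN.Chr (SN.cyl M.G) a c m x * SN.Chr (SN.cyl M.G) b m d x) *
        qv i x a * qv j x b * qv k x c := by
    simp only [← Finset.sum_sub_distrib, ← Finset.sum_add_distrib]
    refine Finset.sum_congr rfl fun a _ => Finset.sum_congr rfl fun b _ =>
      Finset.sum_congr rfl fun c _ => ?_
    unfold SN.Rup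
    rw [Finset.sum_sub_distrib]
    ring
  have e6 : 2 * ∑ m, TS.eps i j m * cvd (SN.cyl M.G) m k d x =
      2 * ∑ m, TS.eps i j m * qv k (qv m x) d +
      2 * ∑ m, TS.eps i j m * ∑ b, ∑ c, SN.Chr (SN.cyl M.G) b c d x * qv m x b * qv k x c := by
    rw [← mul_add, ← Finset.sum_add_distrib]
    congr 1
    refine Finset.sum_congr rfl fun m _ => ?_
    rw [T3R_cvd]
    ring
  rw [e5, e6, e3, e4]
  linarith [e1, e2]

/-- the coefficients of the connection are differentiable -/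
theorem T3R_gd (hT3A : A_T3A) (hT3C : A_T3C) (j k m : Fin 3) {x : SN.EE 3} (hx : x ≠ 0) :
    DifferentiableAt ℝ (fun y => TS.Gam (g3 M.G) j k m (TS.toQ y)) x := by
  have h1 : (fun y => TS.Gam (g3 M.G) j k m (TS.toQ y)) =ᶠ[nhds x]
      fun y => (∑ d, cvd (SN.cyl M.G) j k d y * qv m y d) / ‖y‖ ^ 2 := by
    filter_upwards [isOpen_compl_singleton.mem_nhds hx] with y hy
    have hn : ‖y‖ ^ 2 ≠ 0 := pow_ne_zero 2 (norm_ne_zero_iff.2 hy)
    rw [eq_div_iff hn]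
    have h2 : ∀ d, cvd (SN.cyl M.G) j k d y * qv m y d =
        ∑ l, TS.Gam (g3 M.G) j k l (TS.toQ y) * (qv l y d * qv m y d) := by
      intro d
      rw [hT3C M y hy j k d, Finset.sum_mul]
      exact Finset.sum_congr rfl fun l _ => by ring
    simp only [h2]
    rw [Finset.sum_comm]
    simp only [← Finset.mul_sum, (hT3A.2.2.2.2.2.2.1 _ _ y).2]
    simp
  refine DifferentiableAt.congr_of_eventuallyEq ?_ h1
  have d1 : DifferentiableAt ℝ
      (fun y => ∑ d, cvd (SN.cyl M.G) j k d y * qv m y d) x := by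
    refine DifferentiableAt.fun_sum fun d _ => ?_
    refine (T3R_dcvd M j k d hx 0).1.mul ?_
    exact ((EuclideanSpace.proj d : SN.EE 3 →L[ℝ] ℝ).comp (ql m)).differentiableAt
  have d2 : DifferentiableAt ℝ (fun y : SN.EE 3 => ‖y‖ ^ 2) x := by
    have h3 : ContDiff ℝ 1 (fun y : SN.EE 3 => ‖y‖ ^ 2) := contDiff_norm_sq ℝ
    exact (h3.differentiable (by simp)).differentiableAt
  have hne : ‖x‖ ^ 2 ≠ 0 := pow_ne_zero 2 (norm_ne_zero_iff.2 hx)
  have d3 : DifferentiableAt ℝ (fun y : SN.EE 3 => (‖y‖ ^ 2)⁻¹) x := d2.fun_inv hne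
  have d4 := d1.fun_mul d3
  simp only [← div_eq_mul_inv] at d4
  exact d4

theorem T3R_E (f : TS.HH → ℝ) (i : Fin 3) (x : SN.EE 3) :
    fderiv ℝ (fun y => f (TS.toQ y)) x (qv i x) = TS.E i f (TS.toQ x) := by
  have h1 : (fun y => f (TS.toQ y)) = f ∘ tq := rfl
  have h2 : fderiv ℝ (f ∘ tq) x = (fderiv ℝ f (tq x)).comp (tq : SN.EE 3 →L[ℝ] TS.HH) :=
    tq.comp_right_fderiv
  have h3 : (tq : SN.EE 3 →L[ℝ] TS.HH) (qv i x) = TS.toQ x * TS.qe i := T3R_toQ_qv i x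
  rw [h1, h2, ContinuousLinearMap.comp_apply, h3]
  rfl

theorem T3R_B (hT3A : A_T3A) (hT3C : A_T3C) (i j k : Fin 3) (d : Fin (3 + 1)) {x : SN.EE 3}
    (hx : x ≠ 0) :
    W2 M i j k d x = ∑ m, TS.E i (TS.Gam (g3 M.G) j k m) (TS.toQ x) * qv m x d +
      ∑ m, TS.Gam (g3 M.G) j k m (TS.toQ x) *
        ∑ l, TS.Gam (g3 M.G) i m l (TS.toQ x) * qv l x d := by
  have h1 : (fun y => cvd (SN.cyl M.G) j k d y) =ᶠ[nhds x]
      fun y => ∑ m, TS.Gam (g3 M.G) j k m (TS.toQ y) * qv m y d := by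
    filter_upwards [isOpen_compl_singleton.mem_nhds hx] with y hy
    exact hT3C M y hy j k d
  have h2 : ∀ (m : Fin 3) (b : Fin (3 + 1)), HasFDerivAt (fun z => qv m z b)
      ((EuclideanSpace.proj b : SN.EE 3 →L[ℝ] ℝ).comp (ql m)) x := fun m b =>
    ((EuclideanSpace.proj b : SN.EE 3 →L[ℝ] ℝ).comp (ql m)).hasFDerivAt
  have h3 := HasFDerivAt.fun_sum (u := (univ : Finset (Fin 3))) fun m _ =>
    (T3R_gd M hT3A hT3C j k m hx).hasFDerivAt.fun_mul (h2 m d)
  have h4 : fderiv ℝ (fun y => cvd (SN.cyl M.G) j k d y) x (qv i x) =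
      ∑ m, (TS.Gam (g3 M.G) j k m (TS.toQ x) * qv m (qv i x) d +
        TS.E i (TS.Gam (g3 M.G) j k m) (TS.toQ x) * qv m x d) := by
    rw [h1.fderiv_eq, h3.fderiv]
    simp only [add_apply, _root_.sum_apply,
      smul_apply, ContinuousLinearMap.comp_apply, smul_eq_mul, ql_apply]
    refine Finset.sum_congr rfl fun m _ => ?_
    rw [T3R_E (TS.Gam (g3 M.G) j k m) i x]
    simp only [PiLp.proj_apply]
    ring
  have h5 : (∑ a, ∑ b, SN.Chr (SN.cyl M.G) a b d x * qv i x a * cvd (SN.cyl M.G) j k b x) =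
      ∑ m, TS.Gam (g3 M.G) j k m (TS.toQ x) *
        ∑ a, ∑ b, SN.Chr (SN.cyl M.G) a b d x * qv i x a * qv m x b := by
    have e : ∀ a b, SN.Chr (SN.cyl M.G) a b d x * qv i x a * cvd (SN.cyl M.G) j k b x =
        ∑ m, TS.Gam (g3 M.G) j k m (TS.toQ x) *
          (SN.Chr (SN.cyl M.G) a b d x * qv i x a * qv m x b) := by
      intro a b
      rw [hT3C M x hx j k b, Finset.mul_sum]
      exact Finset.sum_congr rfl fun m _ => by ring
    simp only [e, Finset.mul_sum]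
    have e2 : ∀ a, (∑ b, ∑ m, TS.Gam (g3 M.G) j k m (TS.toQ x) *
          (SN.Chr (SN.cyl M.G) a b d x * qv i x a * qv m x b)) =
        ∑ m, ∑ b, TS.Gam (g3 M.G) j k m (TS.toQ x) *
          (SN.Chr (SN.cyl M.G) a b d x * qv i x a * qv m x b) := fun a => Finset.sum_comm
    simp only [e2]
    rw [Finset.sum_comm]
  unfold W2
  rw [h4, h5]
  have h6 : ∀ m, ∑ l, TS.Gam (g3 M.G) i m l (TS.toQ x) * qv l x d = qv m (qv i x) d +
      ∑ a, ∑ b, SN.Chr (SN.cyl M.G) a b d x * qv i x a * qv m x b := by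
    intro m
    rw [← hT3C M x hx i m d, T3R_cvd]
  simp only [h6, mul_add, Finset.sum_add_distrib]
  ring

/-- the curvature in the frame -/
theorem T3R_B2 (hT3A : A_T3A) (hT3C : A_T3C) (i j k : Fin 3) (d : Fin (3 + 1)) {x : SN.EE 3}
    (hx : x ≠ 0) :
    W2 M i j k d x - W2 M j i k d x - 2 * ∑ m, TS.eps i j m * cvd (SN.cyl M.G) m k d x =
      ∑ l, TS.Rup (g3 M.G) i j k l (TS.toQ x) * qv l x d := by
  rw [T3R_B M hT3A hT3C i j k d hx, T3R_B M hT3A hT3C j i k d hx]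
  simp only [hT3C M x hx]
  have e : ∀ (c : Fin 3 → ℝ) (g : Fin 3 → Fin 3 → ℝ),
      ∑ m, c m * ∑ l, g m l * qv l x d = ∑ l, (∑ m, c m * g m l) * qv l x d := by
    intro c g
    simp only [Finset.mul_sum, Finset.sum_mul]
    rw [Finset.sum_comm]
    exact Finset.sum_congr rfl fun m _ => Finset.sum_congr rfl fun l _ => by ring
  rw [e, e, e, Finset.mul_sum, ← Finset.sum_add_distrib, ← Finset.sum_add_distrib,
    ← Finset.sum_sub_distrib, ← Finset.sum_sub_distrib]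
  refine Finset.sum_congr rfl fun l _ => ?_
  unfold TS.Rup
  rw [Finset.sum_sub_distrib]
  ring

theorem t_T3R (hT3A : A_T3A) (hT3C : A_T3C) : A_T3R := by
  intro M x hx i j k l
  have key : ∀ d, (∑ a, ∑ b, ∑ c, SN.Rup (SN.cyl M.G) a b c d x * qv i x a * qv j x b *
      qv k x c) = ∑ n, TS.Rup (g3 M.G) i j k n (TS.toQ x) * qv n x d := fun d => by
    rw [← T3R_A M i j k d hx, T3R_B2 M hT3A hT3C i j k d hx]
  have h1 : (∑ a, ∑ b, ∑ c, ∑ d, SN.Rm (SN.cyl M.G) a b c d x * qv i x a * qv j x b *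
      qv k x c * qv l x d) =
      ∑ m, ∑ d, (∑ a, ∑ b, ∑ c, SN.Rup (SN.cyl M.G) a b c m x * qv i x a * qv j x b *
        qv k x c) * (SN.cyl M.G x m d * qv l x d) := by
    have e1 : ∀ a b c d, SN.Rm (SN.cyl M.G) a b c d x * qv i x a * qv j x b * qv k x c *
        qv l x d = ∑ m, SN.Rup (SN.cyl M.G) a b c m x * qv i x a * qv j x b *
          qv k x c * (SN.cyl M.G x m d * qv l x d) := by
      intro a b c d
      unfold SN.Rm
      simp only [Finset.sum_mul]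
      exact Finset.sum_congr rfl fun m _ => by ring
    simp only [e1, Finset.sum_mul]
    have s1 : ∀ F : Fin (3 + 1) → Fin (3 + 1) → Fin (3 + 1) → Fin (3 + 1) → Fin (3 + 1) → ℝ,
        ∑ a, ∑ b, ∑ c, ∑ d, ∑ m, F a b c d m = ∑ m, ∑ d, ∑ a, ∑ b, ∑ c, F a b c d m := by
      intro F
      have c1 : ∀ a b c, ∑ d, ∑ m, F a b c d m = ∑ m, ∑ d, F a b c d m :=
        fun a b c => Finset.sum_comm
      have c2 : ∀ a b, ∑ c, ∑ m, ∑ d, F a b c d m = ∑ m, ∑ d, ∑ c, F a b c d m := by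
        intro a b
        rw [Finset.sum_comm]
        exact Finset.sum_congr rfl fun m _ => Finset.sum_comm
      have c3 : ∀ a, ∑ b, ∑ m, ∑ d, ∑ c, F a b c d m = ∑ m, ∑ d, ∑ b, ∑ c, F a b c d m := by
        intro a
        rw [Finset.sum_comm]
        exact Finset.sum_congr rfl fun m _ => Finset.sum_comm
      simp only [c1, c2, c3]
      rw [Finset.sum_comm]
      exact Finset.sum_congr rfl fun m _ => Finset.sum_comm
    exact s1 _
  rw [h1]
  simp only [key]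
  have h2 : ∀ n, (∑ m, ∑ d, qv n x m * (SN.cyl M.G x m d * qv l x d)) =
      g3 M.G (TS.toQ x) n l := by
    intro n
    have hq := (hT3A.1 x).2
    unfold g3
    rw [Matrix.of_apply, T3R_ofQ_toQ, hq, div_eq_inv_mul]
    unfold SN.ip SN.cyl
    simp only [Finset.mul_sum]
    refine Finset.sum_congr rfl fun m _ => Finset.sum_congr rfl fun d _ => ?_
    rw [Matrix.smul_apply, smul_eq_mul]
    ring
  unfold TS.Rm
  simp only [← h2, Finset.mul_sum, Finset.sum_mul]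
  have s2 : ∀ F : Fin (3 + 1) → Fin (3 + 1) → Fin 3 → ℝ,
      ∑ m, ∑ d, ∑ n, F m d n = ∑ n, ∑ m, ∑ d, F m d n := by
    intro F
    have c1 : ∀ m, ∑ d, ∑ n, F m d n = ∑ n, ∑ d, F m d n := fun m => Finset.sum_comm
    simp only [c1]
    rw [Finset.sum_comm]
  rw [s2]
  refine Finset.sum_congr rfl fun n _ => Finset.sum_congr rfl fun m _ =>
    Finset.sum_congr rfl fun d _ => by ring

end Main

end Pool.Agent.Helper47.T3
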